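import Mathlib

/-!
# Retractional versus projectional skeletons for spaces of continuous functions

For every compact Hausdorff space `K`: if some convex subset of `P(K)` is induced by a
retractional skeleton in `P(K)`, then `C(K)` has a 1-projectional skeleton, and some convex
symmetric subset of the dual ball is induced by a retractional skeleton in the dual ball; and if
some convex symmetric subset of the dual ball is induced by a retractional skeleton in the dual
ball, then `C(K)` has a 1-projectional skeleton.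
-/

open Set Filter Topology

namespace Pool.Agent.Results.MP_baa10a_an.Skeletons

universe u v w

/-- A retractional skeleton in a topological space `L`, indexed by a poset `Γ`
(nonempty and up-directed wherever the notion is used). -/
structure IsRSkeleton {L : Type u} [TopologicalSpace L] {Γ : Type v} [PartialOrder Γ]
    (r : Γ → L → L) : Prop where
  /-- the maps are continuous -/
  continuous : ∀ s, Continuous (r s)
  /-- the maps are retractions -/
  retraction : ∀ s x, r s (r s x) = r s x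
  /-- (1) the ranges are metrizable -/
  metrizable : ∀ s, TopologicalSpace.MetrizableSpace (range (r s))
  /-- (2) `r s = r s ∘ r t = r t ∘ r s` for `s ≤ t` -/
  comp : ∀ s t, s ≤ t → r s ∘ r t = r s ∧ r t ∘ r s = r s
  /-- (3) suprema of strictly increasing sequences exist, with pointwise convergence -/
  sup : ∀ a : ℕ → Γ, StrictMono a → ∃ t, IsLUB (range a) t ∧
    ∀ x, Tendsto (fun n => r (a n) x) atTop (𝓝 (r t x))
  /-- (4) `x = lim r s x` along the directed set -/
  lim : ∀ x, Tendsto (fun s => r s x) atTop (𝓝 x)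

/-- A subset `D` of `L` is induced by some r-skeleton in `L` (index sets in universe `v`). -/
def InducedByRSkeleton {L : Type u} [TopologicalSpace L] (D : Set L) : Prop :=
  ∃ (Γ : Type v) (_ : PartialOrder Γ) (_ : Nonempty Γ) (_ : IsDirectedOrder Γ)
    (r : Γ → L → L), IsRSkeleton r ∧ D = ⋃ s, range (r s)

/-- A 1-projectional skeleton in a real normed space `X`, indexed by a poset `Γ`
(nonempty and up-directed wherever the notion is used). -/
structure IsOneProjSkeleton {X : Type u} [NormedAddCommGroup X] [NormedSpace ℝ X] {Γ : Type v}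
    [PartialOrder Γ] (P : Γ → X →L[ℝ] X) : Prop where
  /-- the operators are projections -/
  projection : ∀ s, P s ∘L P s = P s
  /-- the norms are at most one -/
  norm_le : ∀ s, ‖P s‖ ≤ 1
  /-- (1) the ranges are separable -/
  separable : ∀ s, TopologicalSpace.IsSeparable (range (P s))
  /-- (1) the ranges cover `X` -/
  cover : ⋃ s, range (P s) = univ
  /-- (2) `P s = P s ∘ P t = P t ∘ P s` for `s ≤ t` -/
  comp : ∀ s t, s ≤ t → P s ∘L P t = P s ∧ P t ∘L P s = P s
  /-- (3) suprema of strictly increasing sequences exist, the range at the supremum being the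
  closure of the union of the ranges -/
  sup : ∀ a : ℕ → Γ, StrictMono a → ∃ t, IsLUB (range a) t ∧
    range (P t) = closure (⋃ n, range (P (a n)))

/-- `X` has a 1-projectional skeleton (index sets in universe `v`). -/
def HasOneProjSkeleton (X : Type u) [NormedAddCommGroup X] [NormedSpace ℝ X] : Prop :=
  ∃ (Γ : Type v) (_ : PartialOrder Γ) (_ : Nonempty Γ) (_ : IsDirectedOrder Γ)
    (P : Γ → X →L[ℝ] X), IsOneProjSkeleton P

/-- The closed unit ball of the dual of `C(K)`, as a subset of the weak-star dual. -/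
def dualBall (K : Type u) [TopologicalSpace K] [CompactSpace K] : Set (WeakDual ℝ C(K, ℝ)) :=
  {φ | ‖WeakDual.toStrongDual φ‖ ≤ 1}

/-- `P(K)`, as a subset of the weak-star dual: by the Riesz representation theorem the Radon
probability measures are the positive functionals taking the value one at the constant one. -/
def probs (K : Type u) [TopologicalSpace K] [CompactSpace K] : Set (WeakDual ℝ C(K, ℝ)) :=
  {φ | (∀ f : C(K, ℝ), 0 ≤ f → 0 ≤ φ f) ∧ φ 1 = 1}

/-- Statement (i). -/
def StatementI (K : Type u) [TopologicalSpace K] [CompactSpace K] : Prop :=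
  HasOneProjSkeleton.{u, v} C(K, ℝ)

/-- Statement (ii). -/
def StatementII (K : Type u) [TopologicalSpace K] [CompactSpace K] : Prop :=
  ∃ D : Set (dualBall K), Convex ℝ (Subtype.val '' D : Set (WeakDual ℝ C(K, ℝ))) ∧
    (∀ φ ∈ (Subtype.val '' D : Set (WeakDual ℝ C(K, ℝ))), -φ ∈
      (Subtype.val '' D : Set (WeakDual ℝ C(K, ℝ)))) ∧ InducedByRSkeleton.{u, v} D

/-- Statement (iii). -/
def StatementIII (K : Type u) [TopologicalSpace K] [CompactSpace K] : Prop :=
  ∃ D : Set (probs K), Convex ℝ (Subtype.val '' D : Set (WeakDual ℝ C(K, ℝ))) ∧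
    InducedByRSkeleton.{u, v} D

/-! ### Generalities on r-skeletons -/

section Generalities

variable {L : Type u} [TopologicalSpace L] {Γ : Type v} [PartialOrder Γ] {r : Γ → L → L}

lemma IsRSkeleton.low (h : IsRSkeleton r) {s t : Γ} (hst : s ≤ t) (x : L) :
    r s (r t x) = r s x := congrFun (h.comp s t hst).1 x

lemma IsRSkeleton.high (h : IsRSkeleton r) {s t : Γ} (hst : s ≤ t) (x : L) :
    r t (r s x) = r s x := congrFun (h.comp s t hst).2 x

lemma IsRSkeleton.mono_sup (h : IsRSkeleton r) (a : ℕ → Γ) (ha : Monotone a) :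
    ∃ t, IsLUB (range a) t ∧ ∀ x, Tendsto (fun n => r (a n) x) atTop (𝓝 (r t x)) := by
  by_cases hev : ∃ N, ∀ n, N ≤ n → a n = a N
  · obtain ⟨N, hN⟩ := hev
    refine ⟨a N, ⟨?_, ?_⟩, ?_⟩
    · rintro _ ⟨m, rfl⟩
      calc a m ≤ a (max m N) := ha (le_max_left _ _)
        _ = a N := hN _ (le_max_right _ _)
    · intro b hb
      exact hb ⟨N, rfl⟩
    · intro x
      refine tendsto_const_nhds.congr' ?_
      filter_upwards [eventually_ge_atTop N] with n hn
      rw [hN n hn]
  · push Not at hev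
    have key : ∀ ns : ℕ → ℕ, Tendsto ns atTop atTop →
        ∃ ms : ℕ → ℕ, StrictMono ms ∧ StrictMono (fun j => a (ns (ms j))) := by
      intro ns hns
      have step : ∀ k, ∃ k', k < k' ∧ a (ns k) < a (ns k') := by
        intro k
        obtain ⟨n, hn, hne⟩ := hev (ns k)
        have hlt : a (ns k) < a n := lt_of_le_of_ne (ha hn) (Ne.symm hne)
        obtain ⟨k', hk', hk''⟩ := ((eventually_gt_atTop k).and (hns.eventually_ge_atTop n)).exists
        exact ⟨k', hk', lt_of_lt_of_le hlt (ha hk'')⟩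
      choose nx hnx1 hnx2 using step
      refine ⟨fun j => nx^[j] 0, ?_, ?_⟩
      · refine strictMono_nat_of_lt_succ fun j => ?_
        simp only [Function.iterate_succ_apply']
        exact hnx1 _
      · refine strictMono_nat_of_lt_succ fun j => ?_
        simp only [Function.iterate_succ_apply']
        exact hnx2 _
    have lub : ∀ ns : ℕ → ℕ, Tendsto ns atTop atTop → ∀ t, IsLUB (range fun j => a (ns j)) t →
        IsLUB (range a) t := by
      intro ns hns t ht
      refine ⟨?_, ?_⟩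
      · rintro _ ⟨m, rfl⟩
        obtain ⟨j, hj⟩ := (hns.eventually_ge_atTop m).exists
        exact (ha hj).trans (ht.1 ⟨j, rfl⟩)
      · intro b hb
        refine ht.2 ?_
        rintro _ ⟨j, rfl⟩
        exact hb ⟨ns j, rfl⟩
    obtain ⟨ms, hms1, hms2⟩ := key id tendsto_id
    obtain ⟨t, ht, -⟩ := h.sup _ hms2
    have htl := lub (fun j => ms j) hms1.tendsto_atTop t ht
    refine ⟨t, htl, fun x => ?_⟩
    refine tendsto_of_subseq_tendsto fun ns hns => ?_
    obtain ⟨ms', h1, h2⟩ := key ns hns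
    obtain ⟨t', ht', hlim⟩ := h.sup _ h2
    have htl' := lub (fun j => ns (ms' j)) (hns.comp h1.tendsto_atTop) t' ht'
    have : t' = t := htl'.unique htl
    subst this
    exact ⟨ms', hlim x⟩

lemma IsRSkeleton.seq_ub [IsDirectedOrder Γ] (h : IsRSkeleton r) (a : ℕ → Γ) :
    ∃ t, ∀ n, a n ≤ t := by
  have hd : ∀ x y : Γ, ∃ z, x ≤ z ∧ y ≤ z := fun x y => exists_ge_ge x y
  choose f hf1 hf2 using hd
  let b : ℕ → Γ := fun n => Nat.rec (a 0) (fun k y => f y (a (k + 1))) n
  have hb : ∀ n, b (n + 1) = f (b n) (a (n + 1)) := fun n => rfl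
  have hmono : Monotone b := monotone_nat_of_le_succ fun n => by rw [hb]; exact hf1 _ _
  obtain ⟨t, ht, -⟩ := h.mono_sup b hmono
  refine ⟨t, fun n => ?_⟩
  have : a n ≤ b n := by
    cases n with
    | zero => exact le_rfl
    | succ k => rw [hb]; exact hf2 _ _
  exact this.trans (ht.1 ⟨n, rfl⟩)

lemma IsRSkeleton.countable_ub [Nonempty Γ] [IsDirectedOrder Γ] (h : IsRSkeleton r)
    {ι : Type w} {S : Set ι} (hS : S.Countable) (a : ι → Γ) : ∃ t, ∀ i ∈ S, a i ≤ t := by
  rcases S.eq_empty_or_nonempty with rfl | hne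
  · exact ⟨Classical.arbitrary Γ, by simp⟩
  · obtain ⟨g, rfl⟩ := hS.exists_eq_range hne
    obtain ⟨t, ht⟩ := h.seq_ub (fun n => a (g n))
    exact ⟨t, by rintro _ ⟨n, rfl⟩; exact ht n⟩

variable [CompactSpace L] [T2Space L] [Nonempty Γ] [IsDirectedOrder Γ]

/-- Every continuous function factors through some retraction of the skeleton. -/
lemma IsRSkeleton.exists_invariant (h : IsRSkeleton r) (g : C(L, ℝ)) :
    ∃ s, ∀ x, g (r s x) = g x := by
  let A : Subalgebra ℝ C(L, ℝ) :=
    { carrier := {g | ∃ s, ∀ x, g (r s x) = g x}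
      mul_mem' := by
        rintro g₁ g₂ ⟨s, hs⟩ ⟨t, ht⟩
        obtain ⟨u, hsu, htu⟩ := exists_ge_ge s t
        refine ⟨u, fun x => ?_⟩
        have e1 : g₁ (r u x) = g₁ x := by rw [← hs, h.low hsu, hs]
        have e2 : g₂ (r u x) = g₂ x := by rw [← ht, h.low htu, ht]
        simp [e1, e2]
      add_mem' := by
        rintro g₁ g₂ ⟨s, hs⟩ ⟨t, ht⟩
        obtain ⟨u, hsu, htu⟩ := exists_ge_ge s t
        refine ⟨u, fun x => ?_⟩
        have e1 : g₁ (r u x) = g₁ x := by rw [← hs, h.low hsu, hs]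
        have e2 : g₂ (r u x) = g₂ x := by rw [← ht, h.low htu, ht]
        simp [e1, e2]
      algebraMap_mem' := fun c => ⟨Classical.arbitrary Γ, fun x => by simp⟩ }
  have hsep : A.SeparatesPoints := by
    intro x y hxy
    have hs : ∃ s, r s x ≠ r s y := by
      by_contra hcon
      push Not at hcon
      have h1 := h.lim x
      have h2 := h.lim y
      simp only [hcon] at h1
      exact hxy (tendsto_nhds_unique h1 h2)
    obtain ⟨s, hs⟩ := hs
    obtain ⟨f, hf0, hf1, -⟩ := exists_continuous_zero_one_of_isClosed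
      (isClosed_singleton (x := r s x)) (isClosed_singleton (x := r s y))
      (by simpa using hs)
    refine ⟨fun z => f (r s z), ⟨f.comp ⟨r s, h.continuous s⟩, ⟨s, fun z => ?_⟩, rfl⟩, ?_⟩
    · simp [h.retraction]
    · have e0 : f (r s x) = 0 := hf0 rfl
      have e1 : f (r s y) = 1 := hf1 rfl
      simp [e0, e1]
  have htop := ContinuousMap.subalgebra_topologicalClosure_eq_top_of_separatesPoints A hsep
  have hg : g ∈ A.topologicalClosure := by rw [htop]; trivial
  have hg' : g ∈ closure (A : Set C(L, ℝ)) := by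
    rwa [← Subalgebra.topologicalClosure_coe]
  obtain ⟨gs, hgs, hlim⟩ := mem_closure_iff_seq_limit.1 hg'
  choose s hs using hgs
  obtain ⟨t, ht⟩ := h.seq_ub s
  refine ⟨t, fun x => ?_⟩
  have hev : ∀ y : L, Tendsto (fun n => gs n y) atTop (𝓝 (g y)) := fun y =>
    ((continuous_eval_const y).tendsto g).comp hlim
  have e : ∀ n, gs n (r t x) = gs n x := fun n => by
    rw [← hs n (r t x), h.low (ht n), hs n]
  have h1 := hev (r t x)
  simp only [e] at h1
  exact tendsto_nhds_unique h1 (hev x)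

/-- If a family of continuous functions separates the points, every continuous function is
determined by countably many members of the family. -/
lemma exists_countable_determining {X : Type w} (ev : X → C(L, ℝ))
    (hev : ∀ x y : L, (∀ f, ev f x = ev f y) → x = y) (g : C(L, ℝ)) :
    ∃ F : Set X, F.Countable ∧ ∀ x y, (∀ f ∈ F, ev f x = ev f y) → g x = g y := by
  let A : Subalgebra ℝ C(L, ℝ) :=
    { carrier := {g | ∃ F : Set X, F.Countable ∧
        ∀ x y, (∀ f ∈ F, ev f x = ev f y) → g x = g y}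
      mul_mem' := by
        rintro g₁ g₂ ⟨F, hF, hF'⟩ ⟨G, hG, hG'⟩
        refine ⟨F ∪ G, hF.union hG, fun x y hxy => ?_⟩
        simp [hF' x y fun f hf => hxy f (Or.inl hf), hG' x y fun f hf => hxy f (Or.inr hf)]
      add_mem' := by
        rintro g₁ g₂ ⟨F, hF, hF'⟩ ⟨G, hG, hG'⟩
        refine ⟨F ∪ G, hF.union hG, fun x y hxy => ?_⟩
        simp [hF' x y fun f hf => hxy f (Or.inl hf), hG' x y fun f hf => hxy f (Or.inr hf)]
      algebraMap_mem' := fun c => ⟨∅, countable_empty, fun x y _ => by simp⟩ }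
  have hsep : A.SeparatesPoints := by
    intro x y hxy
    have : ∃ f, ev f x ≠ ev f y := by
      by_contra hcon
      push Not at hcon
      exact hxy (hev x y hcon)
    obtain ⟨f, hf⟩ := this
    exact ⟨ev f, ⟨ev f, ⟨{f}, countable_singleton f, fun x y h => h f rfl⟩, rfl⟩, hf⟩
  have htop := ContinuousMap.subalgebra_topologicalClosure_eq_top_of_separatesPoints A hsep
  have hg : g ∈ A.topologicalClosure := by rw [htop]; trivial
  have hg' : g ∈ closure (A : Set C(L, ℝ)) := by
    rwa [← Subalgebra.topologicalClosure_coe]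
  obtain ⟨gs, hgs, hlim⟩ := mem_closure_iff_seq_limit.1 hg'
  choose F hF hF' using hgs
  refine ⟨⋃ n, F n, countable_iUnion hF, fun x y hxy => ?_⟩
  have hevt : ∀ y : L, Tendsto (fun n => gs n y) atTop (𝓝 (g y)) := fun y =>
    ((continuous_eval_const y).tendsto g).comp hlim
  have e : ∀ n, gs n x = gs n y := fun n =>
    hF' n x y fun f hf => hxy f (mem_iUnion.2 ⟨n, hf⟩)
  have h1 := hevt x
  simp only [e] at h1
  exact tendsto_nhds_unique h1 (hevt y)

omit [T2Space L] [Nonempty Γ] [IsDirectedOrder Γ] in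
lemma IsRSkeleton.exists_countable_dense (h : IsRSkeleton r) (s : Γ) :
    ∃ C : Set L, C.Countable ∧ (∀ c ∈ C, r s c = c) ∧ ∀ x, r s x = x → x ∈ closure C := by
  have := h.metrizable s
  have : CompactSpace (range (r s)) :=
    isCompact_iff_compactSpace.1 (isCompact_range (h.continuous s))
  let _ := TopologicalSpace.metrizableSpaceMetric (range (r s))
  obtain ⟨C, hC, hCd⟩ := TopologicalSpace.exists_countable_dense (range (r s))
  refine ⟨Subtype.val '' C, hC.image _, ?_, ?_⟩
  · rintro _ ⟨⟨_, ⟨y, rfl⟩⟩, -, rfl⟩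
    exact h.retraction s y
  · intro x hx
    have h1 : (⟨x, ⟨x, hx⟩⟩ : range (r s)) ∈ closure C := hCd _
    have h2 := image_closure_subset_closure_image (f := (Subtype.val : range (r s) → L))
      (s := C) continuous_subtype_val
    exact h2 ⟨_, h1, rfl⟩

omit [Nonempty Γ] [IsDirectedOrder Γ] in
lemma IsRSkeleton.exists_determining (h : IsRSkeleton r) {X : Type w} (ev : X → C(L, ℝ))
    (hev : ∀ x y : L, (∀ f, ev f x = ev f y) → x = y) (s : Γ) :
    ∃ F : Set X, F.Countable ∧ ∀ x y, (∀ f ∈ F, ev f x = ev f y) → r s x = r s y := by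
  have := h.metrizable s
  have : CompactSpace (range (r s)) :=
    isCompact_iff_compactSpace.1 (isCompact_range (h.continuous s))
  let _ := TopologicalSpace.metrizableSpaceMetric (range (r s))
  obtain ⟨C, hC, hCd⟩ := TopologicalSpace.exists_countable_dense (range (r s))
  let q : L → range (r s) := fun x => ⟨r s x, ⟨x, rfl⟩⟩
  have hq : Continuous q := (h.continuous s).subtype_mk _
  have hex : ∀ c : range (r s), ∃ F : Set X, F.Countable ∧
      ∀ x y, (∀ f ∈ F, ev f x = ev f y) → dist c (q x) = dist c (q y) := by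
    intro c
    exact exists_countable_determining ev hev ⟨fun x => dist c (q x), by fun_prop⟩
  choose F hF hF' using hex
  refine ⟨⋃ c ∈ C, F c, hC.biUnion fun c _ => hF c, fun x y hxy => ?_⟩
  have hcl : IsClosed {c : range (r s) | dist c (q x) = dist c (q y)} :=
    isClosed_eq (by fun_prop) (by fun_prop)
  have hsub : C ⊆ {c : range (r s) | dist c (q x) = dist c (q y)} := fun c hc =>
    hF' c x y fun f hf => hxy f (mem_biUnion hc hf)
  have hall : ∀ c : range (r s), dist c (q x) = dist c (q y) := fun c =>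
    closure_minimal hsub hcl (hCd c)
  have h0 := hall (q x)
  rw [dist_self] at h0
  have : q x = q y := dist_eq_zero.1 h0.symm
  exact congrArg Subtype.val this

/-- **Cofinality of homomorphic retractions.** If the set induced by the skeleton is closed under
a separable family of continuous binary operations which are compatible with a separating family
of functions, then cofinally many retractions are homomorphisms. -/
theorem IsRSkeleton.exists_hom (h : IsRSkeleton r) {X : Type w} (ev : X → C(L, ℝ))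
    (hev : ∀ x y : L, (∀ f, ev f x = ev f y) → x = y)
    {A : Type*} [TopologicalSpace A] [TopologicalSpace.SeparableSpace A]
    (op : A → L → L → L) (hop : Continuous fun q : A × L × L => op q.1 q.2.1 q.2.2)
    (hcompat : ∀ f p x y x' y', ev f x = ev f x' → ev f y = ev f y' →
      ev f (op p x y) = ev f (op p x' y'))
    (hD : ∀ p x y, (∃ s, r s x = x) → (∃ s, r s y = y) → ∃ s, r s (op p x y) = op p x y)
    (s₀ : Γ) : ∃ t, s₀ ≤ t ∧ ∀ p x y, r t (op p x y) = op p (r t x) (r t y) := by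
  -- one step upwards, for the operations
  have step1 : ∀ s, ∃ s', ∀ p x y, r s x = x → r s y = y → r s' (op p x y) = op p x y := by
    intro s
    obtain ⟨C, hC, hCfix, hCd⟩ := h.exists_countable_dense s
    obtain ⟨A₀, hA₀, hA₀d⟩ := TopologicalSpace.exists_countable_dense A
    have hT : (A₀ ×ˢ (C ×ˢ C)).Countable := hA₀.prod (hC.prod hC)
    have hex : ∀ q : A × L × L, ∃ s', q ∈ A₀ ×ˢ (C ×ˢ C) →
        r s' (op q.1 q.2.1 q.2.2) = op q.1 q.2.1 q.2.2 := by
      intro q
      by_cases hq : q ∈ A₀ ×ˢ (C ×ˢ C)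
      · obtain ⟨s', hs'⟩ := hD q.1 q.2.1 q.2.2 ⟨s, hCfix _ hq.2.1⟩ ⟨s, hCfix _ hq.2.2⟩
        exact ⟨s', fun _ => hs'⟩
      · exact ⟨s, fun hq' => absurd hq' hq⟩
    choose a ha using hex
    obtain ⟨s', hs'⟩ := h.countable_ub hT a
    refine ⟨s', fun p x y hx hy => ?_⟩
    have hcl : IsClosed {q : A × L × L | r s' (op q.1 q.2.1 q.2.2) = op q.1 q.2.1 q.2.2} :=
      isClosed_eq ((h.continuous s').comp hop) hop
    have hsub : A₀ ×ˢ (C ×ˢ C) ⊆
        {q : A × L × L | r s' (op q.1 q.2.1 q.2.2) = op q.1 q.2.1 q.2.2} := by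
      intro q hq
      show r s' (op q.1 q.2.1 q.2.2) = op q.1 q.2.1 q.2.2
      rw [← ha q hq, h.high (hs' q hq)]
    have hmem : (p, x, y) ∈ closure (A₀ ×ˢ (C ×ˢ C)) := by
      rw [closure_prod_eq, closure_prod_eq]
      exact ⟨hA₀d p, hCd x hx, hCd y hy⟩
    exact closure_minimal hsub hcl hmem
  -- one step upwards, for both
  have step : ∀ s, ∃ s', s ≤ s' ∧
      (∀ p x y, r s x = x → r s y = y → r s' (op p x y) = op p x y) ∧
      ∃ F : Set X, (∀ x y, (∀ f ∈ F, ev f x = ev f y) → r s x = r s y) ∧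
        ∀ f ∈ F, ∀ x, ev f (r s' x) = ev f x := by
    intro s
    obtain ⟨s₁, hs₁⟩ := step1 s
    obtain ⟨F, hF, hF'⟩ := h.exists_determining ev hev s
    have hinv : ∀ f, ∃ s', ∀ x, ev f (r s' x) = ev f x := fun f => h.exists_invariant (ev f)
    choose b hb using hinv
    obtain ⟨s₂, hs₂⟩ := h.countable_ub hF b
    obtain ⟨s₃, h31, h32⟩ := exists_ge_ge s₁ s₂
    obtain ⟨s', h3, h0⟩ := exists_ge_ge s₃ s
    refine ⟨s', h0, ?_, F, hF', ?_⟩
    · intro p x y hx hy
      rw [← hs₁ p x y hx hy, h.high (h31.trans h3)]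
    · intro f hf x
      rw [← hb f (r s' x), h.low ((hs₂ f hf).trans (h32.trans h3)), hb f]
  choose nx hnx1 hnx2 F hF1 hF2 using step
  let a : ℕ → Γ := fun n => nx^[n] s₀
  have ha : ∀ n, a (n + 1) = nx (a n) := fun n => Function.iterate_succ_apply' _ _ _
  have hmono : Monotone a := monotone_nat_of_le_succ fun n => by rw [ha]; exact hnx1 _
  obtain ⟨t, ht, hlim⟩ := h.mono_sup a hmono
  have hle : ∀ n, a n ≤ t := fun n => ht.1 ⟨n, rfl⟩
  have claim1 : ∀ p x y, r t x = x → r t y = y → r t (op p x y) = op p x y := by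
    intro p x y hx hy
    have hx' := hlim x
    have hy' := hlim y
    rw [hx] at hx'
    rw [hy] at hy'
    have hprod : Tendsto (fun n => op p (r (a n) x) (r (a n) y)) atTop (𝓝 (op p x y)) := by
      have h1 : Tendsto (fun n => ((p, r (a n) x, r (a n) y) : A × L × L)) atTop
          (𝓝 (p, x, y)) := by
        refine Tendsto.prodMk_nhds tendsto_const_nhds (hx'.prodMk_nhds hy')
      exact (hop.tendsto (p, x, y)).comp h1
    have hfix : ∀ n, r t (op p (r (a n) x) (r (a n) y)) = op p (r (a n) x) (r (a n) y) := by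
      intro n
      have e := hnx2 (a n) p (r (a n) x) (r (a n) y) (h.retraction _ _) (h.retraction _ _)
      rw [← ha] at e
      rw [← e, h.high (hle (n + 1))]
    have h2 := ((h.continuous t).tendsto (op p x y)).comp hprod
    have h3 : (r t ∘ fun n => op p (r (a n) x) (r (a n) y)) =
        fun n => op p (r (a n) x) (r (a n) y) := funext hfix
    rw [h3] at h2
    exact tendsto_nhds_unique h2 hprod
  have claim2 : ∀ x y, (∀ n, ∀ f ∈ F (a n), ev f x = ev f y) → r t x = r t y := by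
    intro x y hxy
    have e : ∀ n, r (a n) x = r (a n) y := fun n => hF1 (a n) x y (hxy n)
    have h1 := hlim x
    simp only [e] at h1
    exact tendsto_nhds_unique h1 (hlim y)
  have claim3 : ∀ n, ∀ f ∈ F (a n), ∀ x, ev f (r t x) = ev f x := by
    intro n f hf x
    have e := hF2 (a n) f hf
    rw [← ha] at e
    rw [← e (r t x), h.low (hle (n + 1)), e]
  refine ⟨t, hle 0, fun p x y => ?_⟩
  have e1 : r t (op p x y) = r t (op p (r t x) (r t y)) := by
    refine claim2 _ _ fun n f hf => ?_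
    exact hcompat f p x y (r t x) (r t y) (claim3 n f hf x).symm (claim3 n f hf y).symm
  rw [e1]
  exact claim1 p _ _ (h.retraction t x) (h.retraction t y)

omit [Nonempty Γ] [IsDirectedOrder Γ] in
/-- Along an increasing sequence with supremum `t`, the convergence is uniform in the sense of
composition with a fixed continuous function. -/
lemma IsRSkeleton.uniform (hr : IsRSkeleton r) (a : ℕ → Γ) (ha : Monotone a) (t : Γ)
    (hle : ∀ n, a n ≤ t) (hlim : ∀ x, Tendsto (fun n => r (a n) x) atTop (𝓝 (r t x)))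
    (g : C(L, ℝ)) (ε : ℝ) (hε : 0 < ε) :
    ∃ n, ∀ x, |g (r t x) - g (r (a n) x)| ≤ ε := by
  have hcs : CompactSpace (range (r t)) :=
    isCompact_iff_compactSpace.1 (isCompact_range (hr.continuous t))
  have hmem : ∀ s, s ≤ t → ∀ x : range (r t), r s x.1 ∈ range (r t) :=
    fun s hs x => ⟨r s x.1, hr.high hs _⟩
  have hup : ∀ (g : C(range (r t), ℝ)) (m n : ℕ), m ≤ n →
      (∀ x, g ⟨r (a m) x.1, hmem _ (hle m) x⟩ = g x) →
      (∀ x, g ⟨r (a n) x.1, hmem _ (hle n) x⟩ = g x) := by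
    intro g m n hmn hm x
    have hma : a m ≤ a n := ha hmn
    rw [← hm, ← hm x]
    simp only [hr.low hma]
  let B : Subalgebra ℝ C(range (r t), ℝ) :=
    { carrier := {g | ∃ n, ∀ x, g ⟨r (a n) x.1, hmem _ (hle n) x⟩ = g x}
      mul_mem' := by
        rintro g₁ g₂ ⟨m, hm⟩ ⟨n, hn⟩
        refine ⟨max m n, fun x => ?_⟩
        rw [ContinuousMap.mul_apply, ContinuousMap.mul_apply,
          hup g₁ m _ (le_max_left _ _) hm x, hup g₂ n _ (le_max_right _ _) hn x]
      add_mem' := by
        rintro g₁ g₂ ⟨m, hm⟩ ⟨n, hn⟩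
        refine ⟨max m n, fun x => ?_⟩
        rw [ContinuousMap.add_apply, ContinuousMap.add_apply,
          hup g₁ m _ (le_max_left _ _) hm x, hup g₂ n _ (le_max_right _ _) hn x]
      algebraMap_mem' := fun c => ⟨0, fun x => by simp⟩ }
  have hsep : B.SeparatesPoints := by
    intro x y hxy
    have hx : r t x.1 = x.1 := by
      obtain ⟨z, hz⟩ := x.2
      rw [← hz, hr.retraction]
    have hy : r t y.1 = y.1 := by
      obtain ⟨z, hz⟩ := y.2
      rw [← hz, hr.retraction]
    have hs : ∃ n, r (a n) x.1 ≠ r (a n) y.1 := by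
      by_contra hcon
      push Not at hcon
      have h1 := hlim x.1
      have h2 := hlim y.1
      simp only [hcon] at h1
      have := tendsto_nhds_unique h1 h2
      rw [hx, hy] at this
      exact hxy (Subtype.ext this)
    obtain ⟨n, hn⟩ := hs
    obtain ⟨f, hf0, hf1, -⟩ := exists_continuous_zero_one_of_isClosed
      (isClosed_singleton (x := r (a n) x.1)) (isClosed_singleton (x := r (a n) y.1))
      (by simpa using hn)
    refine ⟨fun z => f (r (a n) z.1), ⟨f.comp ⟨fun z : range (r t) => r (a n) z.1,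
      (hr.continuous _).comp continuous_subtype_val⟩, ⟨n, fun z => ?_⟩, rfl⟩, ?_⟩
    · simp [hr.retraction]
    · have e0 : f (r (a n) x.1) = 0 := hf0 rfl
      have e1 : f (r (a n) y.1) = 1 := hf1 rfl
      simp [e0, e1]
  have htop := ContinuousMap.subalgebra_topologicalClosure_eq_top_of_separatesPoints B hsep
  have hg : g.restrict (range (r t)) ∈ B.topologicalClosure := by rw [htop]; trivial
  have hg' : g.restrict (range (r t)) ∈ closure (B : Set C(range (r t), ℝ)) := by
    rwa [← Subalgebra.topologicalClosure_coe]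
  rw [Metric.mem_closure_iff] at hg'
  obtain ⟨h, ⟨n, hn⟩, hgh⟩ := hg' (ε / 2) (by positivity)
  rw [dist_eq_norm] at hgh
  refine ⟨n, fun x => ?_⟩
  let y : range (r t) := ⟨r t x, ⟨_, rfl⟩⟩
  have e1 : g (r t x) = (g.restrict (range (r t))) y := rfl
  have e2 : g (r (a n) x) = (g.restrict (range (r t))) ⟨r (a n) y.1, hmem _ (hle n) y⟩ := by
    show g (r (a n) x) = g (r (a n) (r t x))
    rw [hr.low (hle n)]
  have hb : ∀ z, |(g.restrict (range (r t))) z - h z| ≤ ε / 2 := fun z =>
    ((g.restrict (range (r t)) - h).norm_coe_le_norm z).trans hgh.le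
  have h1 := abs_le.1 (hb y)
  have h2 := abs_le.1 (hb ⟨r (a n) y.1, hmem _ (hle n) y⟩)
  rw [hn y] at h2
  rw [e1, e2, abs_le]
  constructor <;> linarith [h1.1, h1.2, h2.1, h2.2]

lemma hom_of_tendsto {L : Type u} [TopologicalSpace L] [T2Space L] {A : Type*}
    [TopologicalSpace A] (op : A → L → L → L)
    (hop : Continuous fun q : A × L × L => op q.1 q.2.1 q.2.2) {ρ : ℕ → L → L} {σ : L → L}
    (hlim : ∀ x, Tendsto (fun n => ρ n x) atTop (𝓝 (σ x)))
    (hh : ∀ n p x y, ρ n (op p x y) = op p (ρ n x) (ρ n y)) (p : A) (x y : L) :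
    σ (op p x y) = op p (σ x) (σ y) := by
  have h1 := hlim (op p x y)
  have h2 : Tendsto (fun n => op p (ρ n x) (ρ n y)) atTop (𝓝 (op p (σ x) (σ y))) := by
    have h3 : Tendsto (fun n => ((p, ρ n x, ρ n y) : A × L × L)) atTop (𝓝 (p, σ x, σ y)) :=
      Tendsto.prodMk_nhds tendsto_const_nhds ((hlim x).prodMk_nhds (hlim y))
    exact (hop.tendsto (p, σ x, σ y)).comp h3
  simp only [hh] at h1
  exact tendsto_nhds_unique h1 h2

end Generalities

/-! ### The dual of `C(K)` -/

section Dirac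

variable {K : Type u} [TopologicalSpace K]

/-- The Dirac functional. -/
noncomputable def dirac (x : K) : WeakDual ℝ C(K, ℝ) :=
  StrongDual.toWeakDual (ContinuousMap.evalCLM ℝ x)

@[simp] lemma dirac_apply (x : K) (f : C(K, ℝ)) : dirac x f = f x := rfl

lemma continuous_dirac : Continuous (dirac : K → WeakDual ℝ C(K, ℝ)) :=
  WeakDual.continuous_of_continuous_eval fun f => f.continuous

lemma continuous_apply (f : C(K, ℝ)) : Continuous fun φ : WeakDual ℝ C(K, ℝ) => φ f :=
  WeakDual.eval_continuous f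

end Dirac

section Dual

variable {K : Type u} [TopologicalSpace K] [CompactSpace K]

lemma mem_dualBall_iff {φ : WeakDual ℝ C(K, ℝ)} : φ ∈ dualBall K ↔ ∀ f, |φ f| ≤ ‖f‖ := by
  constructor
  · intro h f
    have h1 := (WeakDual.toStrongDual φ).le_opNorm f
    have h2 : ‖WeakDual.toStrongDual φ‖ ≤ 1 := h
    have h3 : ‖WeakDual.toStrongDual φ‖ * ‖f‖ ≤ 1 * ‖f‖ :=
      mul_le_mul_of_nonneg_right h2 (norm_nonneg f)
    rw [one_mul] at h3
    exact h1.trans h3
  · intro h
    refine ContinuousLinearMap.opNorm_le_bound _ zero_le_one fun f => ?_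
    rw [one_mul]
    exact h f

lemma dirac_mem_dualBall (x : K) : dirac x ∈ dualBall K :=
  mem_dualBall_iff.2 fun f => by
    rw [dirac_apply]
    exact f.norm_coe_le_norm x

lemma dirac_mem_probs (x : K) : dirac x ∈ probs K :=
  ⟨fun _ hf => hf x, rfl⟩

lemma isCompact_dualBall : IsCompact (dualBall K) := by
  have h := WeakDual.isCompact_closedBall (𝕜 := ℝ) (E := C(K, ℝ)) 0 1
  have e : dualBall K =
      WeakDual.toStrongDual ⁻¹' Metric.closedBall (0 : StrongDual ℝ C(K, ℝ)) 1 := by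
    ext φ
    rw [mem_preimage]
    exact (mem_closedBall_zero_iff (a := WeakDual.toStrongDual φ) (r := 1)).symm
  rwa [e]

lemma probs_subset : probs K ⊆ dualBall K := by
  rintro φ ⟨hpos, hone⟩
  rw [mem_dualBall_iff]
  intro f
  have h1 : 0 ≤ φ (‖f‖ • (1 : C(K, ℝ)) - f) := hpos _ fun x => by
    have := f.norm_coe_le_norm x
    rw [Real.norm_eq_abs] at this
    have h := (abs_le.1 this).2
    simpa using h
  have h2 : 0 ≤ φ (‖f‖ • (1 : C(K, ℝ)) + f) := hpos _ fun x => by
    have := f.norm_coe_le_norm x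
    rw [Real.norm_eq_abs] at this
    have h := (abs_le.1 this).1
    have h3 : 0 ≤ ‖f‖ + f x := by linarith
    simpa using h3
  rw [map_sub, map_smul, hone, smul_eq_mul, mul_one] at h1
  rw [map_add, map_smul, hone, smul_eq_mul, mul_one] at h2
  rw [abs_le]
  constructor <;> linarith

lemma isClosed_probs : IsClosed (probs K) := by
  have e : probs K = (⋂ f : C(K, ℝ), ⋂ _ : 0 ≤ f, {φ : WeakDual ℝ C(K, ℝ) | 0 ≤ φ f}) ∩
      {φ | φ 1 = 1} := by
    ext φ
    simp [probs]
  rw [e]
  refine IsClosed.inter ?_ (isClosed_eq (continuous_apply 1) continuous_const)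
  exact isClosed_iInter fun f => isClosed_iInter fun _ =>
    isClosed_le continuous_const (continuous_apply f)

lemma isCompact_probs : IsCompact (probs K) :=
  isCompact_dualBall.of_isClosed_subset isClosed_probs probs_subset

instance : LocallyConvexSpace ℝ (WeakDual ℝ C(K, ℝ)) :=
  inferInstanceAs (LocallyConvexSpace ℝ (WeakBilin (topDualPairing ℝ C(K, ℝ))))

omit [CompactSpace K] in
/-- Hahn-Banach separation in the weak-star dual. -/
lemma separation {T : Set (WeakDual ℝ C(K, ℝ))} (hT : Convex ℝ T) (hTc : IsClosed T)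
    {φ : WeakDual ℝ C(K, ℝ)} (hφ : φ ∉ T) :
    ∃ (f : C(K, ℝ)) (c : ℝ), (∀ ψ ∈ T, ψ f < c) ∧ c < φ f := by
  obtain ⟨g, c, h1, h2⟩ := geometric_hahn_banach_closed_point hT hTc hφ
  obtain ⟨f, hf⟩ := LinearMap.dualEmbedding_surjective (topDualPairing ℝ C(K, ℝ)) g
  refine ⟨f, c, fun ψ hψ => ?_, ?_⟩
  · have := h1 ψ hψ
    rw [← hf] at this
    exact this
  · rw [← hf] at h2
    exact h2

/-- Coefficient pairs of convex combinations. -/
def convexPairs : Set (ℝ × ℝ) := {p | 0 ≤ p.1 ∧ 0 ≤ p.2 ∧ p.1 + p.2 = 1}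

/-- Coefficient pairs of absolutely convex combinations. -/
def absConvexPairs : Set (ℝ × ℝ) := {p | |p.1| + |p.2| ≤ 1}

lemma convexPairs_subset : convexPairs ⊆ absConvexPairs := by
  rintro p ⟨h1, h2, h3⟩
  show |p.1| + |p.2| ≤ 1
  rw [abs_of_nonneg h1, abs_of_nonneg h2, h3]

lemma probs_comb (p : ℝ × ℝ) (hp : p ∈ convexPairs) {μ ν : WeakDual ℝ C(K, ℝ)}
    (hμ : μ ∈ probs K) (hν : ν ∈ probs K) : p.1 • μ + p.2 • ν ∈ probs K := by
  obtain ⟨h1, h2, h3⟩ := hp
  refine ⟨fun f hf => ?_, ?_⟩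
  · show 0 ≤ p.1 * μ f + p.2 * ν f
    exact add_nonneg (mul_nonneg h1 (hμ.1 f hf)) (mul_nonneg h2 (hν.1 f hf))
  · show p.1 * μ 1 + p.2 * ν 1 = 1
    rw [hμ.2, hν.2, mul_one, mul_one, h3]

lemma dualBall_comb (p : ℝ × ℝ) (hp : p ∈ absConvexPairs) {μ ν : WeakDual ℝ C(K, ℝ)}
    (hμ : μ ∈ dualBall K) (hν : ν ∈ dualBall K) : p.1 • μ + p.2 • ν ∈ dualBall K := by
  have hp' : |p.1| + |p.2| ≤ 1 := hp
  rw [mem_dualBall_iff] at *
  intro f
  show |p.1 * μ f + p.2 * ν f| ≤ ‖f‖
  calc |p.1 * μ f + p.2 * ν f| ≤ |p.1 * μ f| + |p.2 * ν f| := abs_add_le _ _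
    _ = |p.1| * |μ f| + |p.2| * |ν f| := by rw [abs_mul, abs_mul]
    _ ≤ |p.1| * ‖f‖ + |p.2| * ‖f‖ :=
        add_le_add (mul_le_mul_of_nonneg_left (hμ f) (abs_nonneg _))
          (mul_le_mul_of_nonneg_left (hν f) (abs_nonneg _))
    _ = (|p.1| + |p.2|) * ‖f‖ := by ring
    _ ≤ 1 * ‖f‖ := mul_le_mul_of_nonneg_right hp' (norm_nonneg f)
    _ = ‖f‖ := one_mul _

/-- `P(K)` is the closed convex hull of the Dirac functionals. -/
lemma probs_generated {T : Set (WeakDual ℝ C(K, ℝ))} (hTc : IsClosed T)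
    (hd : ∀ x, dirac x ∈ T) (hcomb : ∀ p ∈ convexPairs, ∀ μ ∈ T, ∀ ν ∈ T, p.1 • μ + p.2 • ν ∈ T) :
    probs K ⊆ T := by
  intro φ hφ
  by_contra hn
  have hconv : Convex ℝ T := by
    intro μ hμ ν hν a b ha hb hab
    exact hcomb (a, b) ⟨ha, hb, hab⟩ μ hμ ν hν
  obtain ⟨f, c, h1, h2⟩ := separation hconv hTc hn
  have h3 : 0 ≤ φ (c • (1 : C(K, ℝ)) - f) := hφ.1 _ fun x => by
    have h := (h1 _ (hd x)).le
    rw [dirac_apply] at h
    simpa using h
  rw [map_sub, map_smul, hφ.2, smul_eq_mul, mul_one] at h3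
  linarith

/-- The dual ball is the closed absolutely convex hull of the Dirac functionals. -/
lemma dualBall_generated {T : Set (WeakDual ℝ C(K, ℝ))} (hTc : IsClosed T)
    (h0 : 0 ∈ T) (hd : ∀ x, dirac x ∈ T)
    (hcomb : ∀ p ∈ absConvexPairs, ∀ μ ∈ T, ∀ ν ∈ T, p.1 • μ + p.2 • ν ∈ T) :
    dualBall K ⊆ T := by
  intro φ hφ
  by_contra hn
  have hconv : Convex ℝ T := by
    intro μ hμ ν hν a b ha hb hab
    exact hcomb (a, b) (convexPairs_subset ⟨ha, hb, hab⟩) μ hμ ν hν
  obtain ⟨f, c, h1, h2⟩ := separation hconv hTc hn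
  have hc : 0 < c := h1 0 h0
  have hf : ‖f‖ ≤ c := by
    rw [ContinuousMap.norm_le _ hc.le]
    intro x
    rw [Real.norm_eq_abs, abs_le]
    constructor
    · have hneg : (-1 : ℝ) • dirac x + (0 : ℝ) • dirac x ∈ T :=
        hcomb (-1, 0) (by simp [absConvexPairs]) _ (hd x) _ (hd x)
      have h := (h1 _ hneg).le
      have e : ((-1 : ℝ) • dirac x + (0 : ℝ) • dirac x : WeakDual ℝ C(K, ℝ)) f
          = (-1 : ℝ) * f x + 0 * f x := rfl
      rw [e] at h
      linarith
    · have h := (h1 _ (hd x)).le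
      rwa [dirac_apply] at h
  have h3 := (le_abs_self (φ f)).trans (mem_dualBall_iff.1 hφ f)
  linarith

end Dual

/-! ### From retractional skeletons to projectional skeletons -/

section Main

variable {K : Type u} [TopologicalSpace K] [CompactSpace K]

/-- The evaluation at `f`, as a continuous function on a subset of the weak-star dual. -/
noncomputable def ev (L : Set (WeakDual ℝ C(K, ℝ))) (f : C(K, ℝ)) : C(L, ℝ) :=
  ⟨fun φ => (φ : WeakDual ℝ C(K, ℝ)) f, (continuous_apply f).comp continuous_subtype_val⟩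

omit [CompactSpace K] in
lemma ev_apply (L : Set (WeakDual ℝ C(K, ℝ))) (f : C(K, ℝ)) (φ : L) :
    ev L f φ = (φ : WeakDual ℝ C(K, ℝ)) f := rfl

/-- The projection associated with a self-map of `L`. -/
noncomputable def proj (L : Set (WeakDual ℝ C(K, ℝ))) (hLB : L ⊆ dualBall K)
    (hδ : ∀ x, dirac x ∈ L) (ρ : L → L) (hρ : Continuous ρ) : C(K, ℝ) →L[ℝ] C(K, ℝ) :=
  LinearMap.mkContinuous
    { toFun := fun f => ⟨fun x => (ρ ⟨dirac x, hδ x⟩ : WeakDual ℝ C(K, ℝ)) f,
        (continuous_apply f).comp (continuous_subtype_val.comp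
          (hρ.comp (continuous_dirac.subtype_mk _)))⟩
      map_add' := fun f g => by
        ext x
        exact map_add (ρ ⟨dirac x, hδ x⟩ : WeakDual ℝ C(K, ℝ)) f g
      map_smul' := fun c f => by
        ext x
        exact map_smul (ρ ⟨dirac x, hδ x⟩ : WeakDual ℝ C(K, ℝ)) c f } 1 fun f => by
        rw [one_mul]
        refine (ContinuousMap.norm_le _ (norm_nonneg f)).2 fun x => ?_
        exact mem_dualBall_iff.1 (hLB (ρ ⟨dirac x, hδ x⟩).2) f

lemma proj_apply (L : Set (WeakDual ℝ C(K, ℝ))) (hLB : L ⊆ dualBall K)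
    (hδ : ∀ x, dirac x ∈ L) (ρ : L → L) (hρ : Continuous ρ) (f : C(K, ℝ)) (x : K) :
    proj L hLB hδ ρ hρ f x = (ρ ⟨dirac x, hδ x⟩ : WeakDual ℝ C(K, ℝ)) f := rfl

lemma proj_norm_le (L : Set (WeakDual ℝ C(K, ℝ))) (hLB : L ⊆ dualBall K)
    (hδ : ∀ x, dirac x ∈ L) (ρ : L → L) (hρ : Continuous ρ) :
    ‖proj L hLB hδ ρ hρ‖ ≤ 1 :=
  LinearMap.mkContinuous_norm_le _ zero_le_one _

/-- **Main step.** -/
theorem hasOneProjSkeleton_of (L : Set (WeakDual ℝ C(K, ℝ))) (hLc : IsCompact L)
    (hLB : L ⊆ dualBall K) (hδ : ∀ x, dirac x ∈ L) (A : Set (ℝ × ℝ))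
    (hA : ∀ p ∈ A, ∀ μ ∈ L, ∀ ν ∈ L, p.1 • μ + p.2 • ν ∈ L)
    (hgen : ∀ T : Set (WeakDual ℝ C(K, ℝ)), IsClosed T → T ⊆ L → (∀ x, dirac x ∈ T) →
      (∀ p ∈ A, ∀ μ ∈ T, ∀ ν ∈ T, p.1 • μ + p.2 • ν ∈ T) → L ⊆ T)
    {Γ : Type v} [PartialOrder Γ] [Nonempty Γ] [IsDirectedOrder Γ] {r : Γ → L → L}
    (hr : IsRSkeleton r)
    (hD : ∀ p ∈ A, ∀ μ ∈ (Subtype.val '' ⋃ s, range (r s) : Set (WeakDual ℝ C(K, ℝ))),
      ∀ ν ∈ (Subtype.val '' ⋃ s, range (r s) : Set (WeakDual ℝ C(K, ℝ))),
      p.1 • μ + p.2 • ν ∈ (Subtype.val '' ⋃ s, range (r s) : Set (WeakDual ℝ C(K, ℝ)))) :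
    HasOneProjSkeleton.{u, v} C(K, ℝ) := by
  have hLcs : CompactSpace L := isCompact_iff_compactSpace.1 hLc
  let op : A → L → L → L := fun p μ ν => ⟨p.1.1 • (μ : WeakDual ℝ C(K, ℝ)) + p.1.2 • ν.1,
    hA p.1 p.2 μ μ.2 ν ν.2⟩
  have hop : Continuous fun q : A × L × L => op q.1 q.2.1 q.2.2 := by
    refine Continuous.subtype_mk ?_ _
    fun_prop
  have hevs : ∀ x y : L, (∀ f, ev L f x = ev L f y) → x = y := fun x y h =>
    Subtype.ext (DFunLike.ext _ _ h)
  have hopev : ∀ f p x y, ev L f (op p x y) = p.1.1 * ev L f x + p.1.2 * ev L f y :=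
    fun f p x y => rfl
  have hcompat : ∀ f p x y x' y', ev L f x = ev L f x' → ev L f y = ev L f y' →
      ev L f (op p x y) = ev L f (op p x' y') := by
    intro f p x y x' y' h1 h2
    rw [hopev, hopev, h1, h2]
  have hD' : ∀ p x y, (∃ s, r s x = x) → (∃ s, r s y = y) → ∃ s, r s (op p x y) = op p x y := by
    rintro p x y ⟨s, hs⟩ ⟨t, ht⟩
    obtain ⟨z, hz, hz'⟩ := hD p.1 p.2 x ⟨x, mem_iUnion.2 ⟨s, ⟨x, hs⟩⟩, rfl⟩ y
      ⟨y, mem_iUnion.2 ⟨t, ⟨y, ht⟩⟩, rfl⟩
    obtain ⟨u, w, hw⟩ := mem_iUnion.1 hz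
    have hzz : z = op p x y := Subtype.ext hz'
    refine ⟨u, ?_⟩
    rw [← hzz, ← hw, hr.retraction]
  have hcof : ∀ s₀, ∃ t, s₀ ≤ t ∧ ∀ p x y, r t (op p x y) = op p (r t x) (r t y) :=
    hr.exists_hom (ev L) hevs op hop hcompat hD'
  -- the new index set
  let Γ' : Type v := {t : Γ // ∀ p x y, r t (op p x y) = op p (r t x) (r t y)}
  have hne : Nonempty Γ' := by
    obtain ⟨t, -, ht⟩ := hcof (Classical.arbitrary Γ)
    exact ⟨⟨t, ht⟩⟩
  have hdir : IsDirectedOrder Γ' := ⟨fun a b => by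
    obtain ⟨c, hac, hbc⟩ := exists_ge_ge a.1 b.1
    obtain ⟨t, hct, ht⟩ := hcof c
    exact ⟨⟨t, ht⟩, hac.trans hct, hbc.trans hct⟩⟩
  let P : Γ' → C(K, ℝ) →L[ℝ] C(K, ℝ) := fun s => proj L hLB hδ (r s.1) (hr.continuous s.1)
  have hP : ∀ (s : Γ') f x, P s f x = (r s.1 ⟨dirac x, hδ x⟩ : WeakDual ℝ C(K, ℝ)) f :=
    fun s f x => rfl
  -- the key identity
  have key : ∀ (s : Γ') (f : C(K, ℝ)) (φ : L),
      (φ : WeakDual ℝ C(K, ℝ)) (P s f) = (r s.1 φ : WeakDual ℝ C(K, ℝ)) f := by
    intro s f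
    let T : Set (WeakDual ℝ C(K, ℝ)) := Subtype.val ''
      {φ : L | (φ : WeakDual ℝ C(K, ℝ)) (P s f) = (r s.1 φ : WeakDual ℝ C(K, ℝ)) f}
    have hTL : T ⊆ L := by
      rintro _ ⟨φ, -, rfl⟩
      exact φ.2
    have hTc : IsClosed T := by
      refine (hLc.isClosed.isClosedEmbedding_subtypeVal).isClosedMap _ ?_
      exact isClosed_eq ((continuous_apply _).comp continuous_subtype_val)
        ((continuous_apply f).comp (continuous_subtype_val.comp (hr.continuous s.1)))
    have hTd : ∀ x, dirac x ∈ T := fun x => ⟨⟨dirac x, hδ x⟩, rfl, rfl⟩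
    have hTcomb : ∀ p ∈ A, ∀ μ ∈ T, ∀ ν ∈ T, p.1 • μ + p.2 • ν ∈ T := by
      rintro p hp _ ⟨μ, hμ, rfl⟩ _ ⟨ν, hν, rfl⟩
      refine ⟨op ⟨p, hp⟩ μ ν, ?_, rfl⟩
      show ev L (P s f) (op ⟨p, hp⟩ μ ν) = ev L f (r s.1 (op ⟨p, hp⟩ μ ν))
      rw [s.2, hopev, hopev]
      have e1 : ev L (P s f) μ = ev L f (r s.1 μ) := hμ
      have e2 : ev L (P s f) ν = ev L f (r s.1 ν) := hν
      rw [e1, e2]
    intro φ
    obtain ⟨ψ, hψ, hψφ⟩ := hgen T hTc hTL hTd hTcomb φ.2
    have : ψ = φ := Subtype.ext hψφ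
    rw [← this]
    exact hψ
  have hcomp1 : ∀ (s t : Γ'), s ≤ t → ∀ f, P s (P t f) = P s f := by
    intro s t hst f
    ext x
    rw [hP, hP, key t f (r s.1 ⟨dirac x, hδ x⟩), hr.high hst]
  have hcomp2 : ∀ (s t : Γ'), s ≤ t → ∀ f, P t (P s f) = P s f := by
    intro s t hst f
    ext x
    rw [hP, hP, key s f (r t.1 ⟨dirac x, hδ x⟩), hr.low hst]
  have hrange : ∀ (s : Γ') g, g ∈ range (P s) ↔ P s g = g := by
    intro s g
    constructor
    · rintro ⟨f, rfl⟩
      exact hcomp1 s s le_rfl f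
    · intro h
      exact ⟨g, h⟩
  refine ⟨Γ', inferInstance, hne, hdir, P, ?_⟩
  constructor
  · intro s
    ext1 f
    exact hcomp1 s s le_rfl f
  · intro s
    exact proj_norm_le L hLB hδ _ _
  · -- separability
    intro s
    have := hr.metrizable s.1
    have : CompactSpace (range (r s.1)) :=
      isCompact_iff_compactSpace.1 (isCompact_range (hr.continuous s.1))
    let _ := TopologicalSpace.metrizableSpaceMetric (range (r s.1))
    have hsc : SecondCountableTopology (range (r s.1)) := inferInstance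
    let R : range (P s) → C(range (r s.1), ℝ) := fun g => (ev L g.1).restrict (range (r s.1))
    have hR : Isometry R := by
      refine Isometry.of_dist_eq fun g g' => ?_
      have hgg : P s (g.1 - g'.1) = g.1 - g'.1 := by
        rw [map_sub, (hrange s g.1).1 g.2, (hrange s g'.1).1 g'.2]
      have e : R g - R g' = (ev L (g.1 - g'.1)).restrict (range (r s.1)) := by
        ext z
        exact (map_sub (z.1.1 : WeakDual ℝ C(K, ℝ)) g.1 g'.1).symm
      rw [dist_eq_norm, e, Subtype.dist_eq, dist_eq_norm]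
      apply le_antisymm
      · refine (ContinuousMap.norm_le _ (norm_nonneg _)).2 fun z => ?_
        exact mem_dualBall_iff.1 (hLB z.1.2) _
      · refine (ContinuousMap.norm_le _ (norm_nonneg _)).2 fun x => ?_
        have e2 : (g.1 - g'.1 : C(K, ℝ)) x = (ev L (g.1 - g'.1)).restrict (range (r s.1))
            ⟨r s.1 ⟨dirac x, hδ x⟩, ⟨_, rfl⟩⟩ := by
          conv_lhs => rw [← hgg]
          exact hP s _ x
        rw [e2]
        exact ContinuousMap.norm_coe_le_norm _ _
    have : SecondCountableTopology (range (P s)) := hR.isEmbedding.secondCountableTopology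
    exact TopologicalSpace.IsSeparable.of_subtype _
  · -- the ranges cover
    refine eq_univ_of_forall fun f => ?_
    obtain ⟨s, hs⟩ := hr.exists_invariant (ev L f)
    obtain ⟨t, hst, ht⟩ := hcof s
    refine mem_iUnion.2 ⟨⟨t, ht⟩, (hrange _ _).2 ?_⟩
    ext x
    rw [hP]
    have e : ev L f (r t ⟨dirac x, hδ x⟩) = ev L f ⟨dirac x, hδ x⟩ := by
      rw [← hs, hr.low hst, hs]
    exact e
  · intro s t hst
    refine ⟨?_, ?_⟩
    · ext1 f
      exact hcomp1 s t hst f
    · ext1 f
      exact hcomp2 s t hst f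
  · -- suprema
    intro a ha
    obtain ⟨t, ht, hlim⟩ := hr.sup (fun n => (a n).1) (fun m n hmn => ha hmn)
    have hhom : ∀ p x y, r t (op p x y) = op p (r t x) (r t y) :=
      hom_of_tendsto op hop hlim fun n => (a n).2
    have hle : ∀ n, (a n).1 ≤ t := fun n => ht.1 ⟨n, rfl⟩
    refine ⟨⟨t, hhom⟩, ⟨?_, ?_⟩, ?_⟩
    · rintro _ ⟨n, rfl⟩
      exact hle n
    · intro b hb
      refine ht.2 ?_
      rintro _ ⟨n, rfl⟩
      exact hb ⟨n, rfl⟩
    · apply Subset.antisymm
      · intro f hf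
        have hf' := (hrange _ _).1 hf
        rw [Metric.mem_closure_iff]
        intro ε hε
        obtain ⟨n, hn⟩ := hr.uniform (fun n => (a n).1) (fun m n hmn => ha.monotone hmn) t hle
          hlim (ev L f) (ε / 2) (by positivity)
        refine ⟨P (a n) f, mem_iUnion.2 ⟨n, ⟨f, rfl⟩⟩, ?_⟩
        rw [dist_eq_norm]
        refine lt_of_le_of_lt ((ContinuousMap.norm_le _ (by positivity : 0 ≤ ε / 2)).2
          fun x => ?_) (by linarith : ε / 2 < ε)
        have e1 : f x = ev L f (r t ⟨dirac x, hδ x⟩) := by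
          have e0 := hP ⟨t, hhom⟩ f x
          rw [hf'] at e0
          rw [e0, ev_apply]
        have e2 : P (a n) f x = ev L f (r (a n).1 ⟨dirac x, hδ x⟩) := by
          rw [hP, ev_apply]
        rw [ContinuousMap.sub_apply, e1, e2, Real.norm_eq_abs]
        exact hn ⟨dirac x, hδ x⟩
      · have hcl : IsClosed (range (P ⟨t, hhom⟩)) := by
          have e : range (P ⟨t, hhom⟩) = {g | P ⟨t, hhom⟩ g = g} := by
            ext g
            exact hrange _ g
          rw [e]
          exact isClosed_eq (P ⟨t, hhom⟩).continuous continuous_id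
        refine closure_minimal ?_ hcl
        refine iUnion_subset fun n => ?_
        rintro _ ⟨f, rfl⟩
        exact (hrange _ _).2 (hcomp2 (a n) ⟨t, hhom⟩ (hle n) f)

end Main

/-! ### The implications -/

section Implications

variable {K : Type u} [TopologicalSpace K] [CompactSpace K]

lemma statementI_of_isEmpty [IsEmpty K] : StatementI.{u, v} K := by
  have hsub : Subsingleton C(K, ℝ) := ⟨fun f g => by ext x; exact isEmptyElim x⟩
  refine ⟨PUnit, inferInstance, inferInstance, ⟨fun a b => ⟨a, le_rfl, le_rfl⟩⟩, fun _ => 0, ?_⟩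
  constructor
  · intro s
    ext1 f
    exact Subsingleton.elim _ _
  · intro s
    simp
  · intro s
    exact (Set.toFinite _).countable.isSeparable
  · refine eq_univ_of_forall fun f => mem_iUnion.2 ⟨PUnit.unit, ⟨f, Subsingleton.elim _ _⟩⟩
  · intro s t _
    exact ⟨by ext1 f; exact Subsingleton.elim _ _, by ext1 f; exact Subsingleton.elim _ _⟩
  · intro a ha
    exact absurd (ha zero_lt_one) (by simp)

/-- (iii) implies (i). -/
theorem statementI_of_statementIII (h : StatementIII.{u, v} K) : StatementI.{u, v} K := by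
  obtain ⟨D, hconv, Γ, _, _, _, r, hr, rfl⟩ := h
  refine hasOneProjSkeleton_of (probs K) isCompact_probs probs_subset dirac_mem_probs convexPairs
    (fun p hp μ hμ ν hν => probs_comb p hp hμ hν)
    (fun T hTc _ hTd hTcomb => probs_generated hTc hTd hTcomb) hr ?_
  rintro p ⟨h1, h2, h3⟩ μ hμ ν hν
  exact hconv hμ hν h1 h2 h3

omit [CompactSpace K] in
lemma absConvex_of_convex_symm {D : Set (WeakDual ℝ C(K, ℝ))} (hconv : Convex ℝ D)
    (hsymm : ∀ φ ∈ D, -φ ∈ D) (p : ℝ × ℝ) (hp : p ∈ absConvexPairs) {μ ν : WeakDual ℝ C(K, ℝ)}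
    (hμ : μ ∈ D) (hν : ν ∈ D) : p.1 • μ + p.2 • ν ∈ D := by
  obtain ⟨a, b⟩ := p
  have hp' : |a| + |b| ≤ 1 := hp
  show a • μ + b • ν ∈ D
  have h0 : (0 : WeakDual ℝ C(K, ℝ)) ∈ D := by
    have h := hconv hμ (hsymm μ hμ) (by norm_num : (0 : ℝ) ≤ 1 / 2)
      (by norm_num : (0 : ℝ) ≤ 1 / 2) (by norm_num)
    rw [smul_neg, add_neg_cancel] at h
    exact h
  have hsgn : ∀ (c : ℝ) (ψ : WeakDual ℝ C(K, ℝ)), ψ ∈ D → ∃ χ ∈ D, c • ψ = |c| • χ := by
    intro c ψ hψ
    rcases le_total 0 c with hc | hc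
    · exact ⟨ψ, hψ, by rw [abs_of_nonneg hc]⟩
    · exact ⟨-ψ, hsymm ψ hψ, by rw [abs_of_nonpos hc, smul_neg, neg_smul, neg_neg]⟩
  obtain ⟨μ', hμ', eμ⟩ := hsgn a μ hμ
  obtain ⟨ν', hν', eν⟩ := hsgn b ν hν
  rw [eμ, eν]
  have hc0 : 0 ≤ |a| + |b| := by positivity
  rcases hc0.eq_or_lt with hc | hc
  · have ha : |a| = 0 := by linarith [abs_nonneg a, abs_nonneg b]
    have hb : |b| = 0 := by linarith [abs_nonneg a, abs_nonneg b]
    rw [ha, hb, zero_smul, zero_smul, add_zero]
    exact h0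
  · have hx : (|a| / (|a| + |b|)) • μ' + (|b| / (|a| + |b|)) • ν' ∈ D :=
      hconv hμ' hν' (by positivity) (by positivity) (by field_simp)
    have hy := hconv hx h0 hc0 (by linarith : 0 ≤ 1 - (|a| + |b|)) (by ring)
    rw [smul_zero, add_zero, smul_add, smul_smul, smul_smul, mul_div_cancel₀ _ hc.ne',
      mul_div_cancel₀ _ hc.ne'] at hy
    exact hy

/-- (ii) implies (i). -/
theorem statementI_of_statementII (h : StatementII.{u, v} K) : StatementI.{u, v} K := by
  rcases isEmpty_or_nonempty K with hK | hK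
  · exact statementI_of_isEmpty
  obtain ⟨D, hconv, hsymm, Γ, _, _, _, r, hr, rfl⟩ := h
  refine hasOneProjSkeleton_of (dualBall K) isCompact_dualBall Subset.rfl dirac_mem_dualBall
    absConvexPairs (fun p hp μ hμ ν hν => dualBall_comb p hp hμ hν) ?_ hr ?_
  · intro T hTc _ hTd hTcomb
    refine dualBall_generated hTc ?_ hTd hTcomb
    obtain ⟨x⟩ := hK
    have h := hTcomb (0, 0) (by simp [absConvexPairs]) _ (hTd x) _ (hTd x)
    simpa using h
  · intro p hp μ hμ ν hν
    exact absConvex_of_convex_symm hconv hsymm p hp hμ hν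

/-- The adjoint of an operator, on the weak-star dual. -/
noncomputable def adj (P : C(K, ℝ) →L[ℝ] C(K, ℝ)) (φ : WeakDual ℝ C(K, ℝ)) :
    WeakDual ℝ C(K, ℝ) :=
  StrongDual.toWeakDual ((WeakDual.toStrongDual φ).comp P)

omit [CompactSpace K] in
lemma adj_apply (P : C(K, ℝ) →L[ℝ] C(K, ℝ)) (φ : WeakDual ℝ C(K, ℝ)) (f : C(K, ℝ)) :
    adj P φ f = φ (P f) := rfl

lemma adj_mem {P : C(K, ℝ) →L[ℝ] C(K, ℝ)} (hP : ‖P‖ ≤ 1) {φ : WeakDual ℝ C(K, ℝ)}
    (hφ : φ ∈ dualBall K) : adj P φ ∈ dualBall K := by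
  rw [mem_dualBall_iff] at *
  intro f
  rw [adj_apply]
  refine (hφ (P f)).trans ((P.le_opNorm f).trans ?_)
  calc ‖P‖ * ‖f‖ ≤ 1 * ‖f‖ := mul_le_mul_of_nonneg_right hP (norm_nonneg f)
    _ = ‖f‖ := one_mul _

omit [CompactSpace K] in
lemma continuous_adj (P : C(K, ℝ) →L[ℝ] C(K, ℝ)) : Continuous (adj P) :=
  WeakDual.continuous_of_continuous_eval fun f => continuous_apply (P f)

lemma tendsto_dualBall {ι : Type w} {l : Filter ι} {u : ι → dualBall K} {φ : dualBall K}
    (hu : ∀ f, Tendsto (fun i => (u i).1 f) l (𝓝 (φ.1 f))) : Tendsto u l (𝓝 φ) := by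
  rw [tendsto_subtype_rng]
  exact tendsto_iff_forall_eval_tendsto_topDualPairing.2 hu

/-- (i) implies (ii). -/
theorem statementII_of_statementI (h : StatementI.{u, v} K) : StatementII.{u, v} K := by
  obtain ⟨Γ, _, _, _, P, hP⟩ := h
  have hlow : ∀ s t, s ≤ t → ∀ f, P s (P t f) = P s f := fun s t hst f =>
    DFunLike.congr_fun (hP.comp s t hst).1 f
  have hhigh : ∀ s t, s ≤ t → ∀ f, P t (P s f) = P s f := fun s t hst f =>
    DFunLike.congr_fun (hP.comp s t hst).2 f
  let r : Γ → dualBall K → dualBall K := fun s φ => ⟨adj (P s) φ, adj_mem (hP.norm_le s) φ.2⟩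
  have hr : ∀ s (φ : dualBall K) f, (r s φ : WeakDual ℝ C(K, ℝ)) f = φ.1 (P s f) :=
    fun s φ f => rfl
  have hcont : ∀ s, Continuous (r s) := fun s =>
    ((continuous_adj (P s)).comp continuous_subtype_val).subtype_mk _
  have hcomp1 : ∀ s t, s ≤ t → ∀ φ, r s (r t φ) = r s φ := by
    intro s t hst φ
    refine Subtype.ext (DFunLike.ext _ _ fun f => ?_)
    rw [hr, hr, hr, hhigh s t hst]
  have hcomp2 : ∀ s t, s ≤ t → ∀ φ, r t (r s φ) = r s φ := by
    intro s t hst φ
    refine Subtype.ext (DFunLike.ext _ _ fun f => ?_)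
    rw [hr, hr, hr, hlow s t hst]
  have hskel : IsRSkeleton r := by
    constructor
    · exact hcont
    · exact fun s x => hcomp1 s s le_rfl x
    · -- metrizability of the ranges
      intro s
      have : CompactSpace (dualBall K) := isCompact_iff_compactSpace.1 isCompact_dualBall
      have : CompactSpace (range (r s)) :=
        isCompact_iff_compactSpace.1 (isCompact_range (hcont s))
      obtain ⟨c, hc, hcd⟩ := hP.separable s
      have hcne : c.Nonempty := by
        rw [nonempty_iff_ne_empty]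
        rintro rfl
        rw [closure_empty] at hcd
        exact hcd ⟨0, rfl⟩
      obtain ⟨g, rfl⟩ := hc.exists_eq_range hcne
      refine Metric.PiNatEmbed.TopologicalSpace.MetrizableSpace.of_countable_separating
        (fun n (φ : range (r s)) => φ.1.1 (g n)) (fun n => ?_) ?_
      · exact (continuous_apply (g n)).comp (continuous_subtype_val.comp continuous_subtype_val)
      · intro φ ψ hne
        by_contra hcon
        push Not at hcon
        apply hne
        have hcl : IsClosed {f : C(K, ℝ) | φ.1.1 f = ψ.1.1 f} :=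
          isClosed_eq (WeakDual.toStrongDual φ.1.1).continuous
            (WeakDual.toStrongDual ψ.1.1).continuous
        have hsub : range g ⊆ {f : C(K, ℝ) | φ.1.1 f = ψ.1.1 f} := by
          rintro _ ⟨n, rfl⟩
          exact hcon n
        have hall := closure_minimal hsub hcl
        have hfix : ∀ χ : range (r s), r s χ.1 = χ.1 := by
          rintro ⟨_, ⟨χ, rfl⟩⟩
          exact hcomp1 s s le_rfl χ
        refine Subtype.ext (Subtype.ext (DFunLike.ext _ _ fun f => ?_))
        have e : φ.1.1 (P s f) = ψ.1.1 (P s f) := hall (hcd ⟨f, rfl⟩)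
        rw [← hfix φ, ← hfix ψ, hr, hr, e]
    · exact fun s t hst => ⟨funext (hcomp1 s t hst), funext (hcomp2 s t hst)⟩
    · -- suprema
      intro a ha
      obtain ⟨t, ht, hrg⟩ := hP.sup a ha
      refine ⟨t, ht, fun φ => tendsto_dualBall fun f => ?_⟩
      have hle : ∀ n, a n ≤ t := fun n => ht.1 ⟨n, rfl⟩
      have hlim : Tendsto (fun n => P (a n) f) atTop (𝓝 (P t f)) := by
        rw [Metric.tendsto_atTop]
        intro ε hε
        have hmem : P t f ∈ closure (⋃ n, range (P (a n))) := by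
          rw [← hrg]
          exact ⟨f, rfl⟩
        rw [Metric.mem_closure_iff] at hmem
        obtain ⟨g, hg, hdist⟩ := hmem (ε / 2) (by positivity)
        obtain ⟨N, h, rfl⟩ := mem_iUnion.1 hg
        refine ⟨N, fun n hn => ?_⟩
        have e1 : P (a n) f = P (a n) (P t f) := (hlow _ _ (hle n) f).symm
        have e2 : P (a n) (P (a N) h) = P (a N) h := hhigh _ _ (ha.monotone hn) h
        rw [dist_eq_norm] at hdist
        calc dist (P (a n) f) (P t f) ≤ dist (P (a n) f) (P (a N) h) + dist (P (a N) h) (P t f) :=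
              dist_triangle _ _ _
          _ = ‖P (a n) (P t f - P (a N) h)‖ + ‖P t f - P (a N) h‖ := by
              rw [dist_eq_norm, dist_eq_norm, map_sub, ← e1, e2, norm_sub_rev (P (a N) h)]
          _ ≤ ‖P t f - P (a N) h‖ + ‖P t f - P (a N) h‖ := by
              gcongr
              refine ((P (a n)).le_opNorm _).trans ?_
              calc ‖P (a n)‖ * ‖P t f - P (a N) h‖ ≤ 1 * ‖P t f - P (a N) h‖ :=
                    mul_le_mul_of_nonneg_right (hP.norm_le _) (norm_nonneg _)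
                _ = _ := one_mul _
          _ < ε := by linarith
      exact ((WeakDual.toStrongDual φ.1).continuous.tendsto (P t f)).comp hlim
    · -- convergence to the identity
      intro φ
      refine tendsto_dualBall fun f => ?_
      have hf : f ∈ ⋃ s, range (P s) := by rw [hP.cover]; trivial
      obtain ⟨s₀, g, rfl⟩ := mem_iUnion.1 hf
      refine tendsto_const_nhds.congr' ?_
      filter_upwards [eventually_ge_atTop s₀] with s hs
      rw [hr, hhigh s₀ s hs]
  refine ⟨⋃ s, range (r s), ?_, ?_, Γ, inferInstance, inferInstance, inferInstance, r, hskel, rfl⟩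
  · rintro _ ⟨μ, hμ, rfl⟩ _ ⟨ν, hν, rfl⟩ a b ha hb hab
    obtain ⟨s, μ', rfl⟩ := mem_iUnion.1 hμ
    obtain ⟨t, ν', rfl⟩ := mem_iUnion.1 hν
    obtain ⟨u, hsu, htu⟩ := exists_ge_ge s t
    let z : dualBall K := ⟨a • (r s μ').1 + b • (r t ν').1,
      dualBall_comb (a, b) (convexPairs_subset ⟨ha, hb, hab⟩) (r s μ').2 (r t ν').2⟩
    refine ⟨r u z, mem_iUnion.2 ⟨u, ⟨z, rfl⟩⟩, DFunLike.ext _ _ fun f => ?_⟩
    show a * (r s μ').1 (P u f) + b * (r t ν').1 (P u f) = a * (r s μ').1 f + b * (r t ν').1 f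
    rw [hr, hr, hr, hr, hlow s u hsu, hlow t u htu]
  · rintro _ ⟨μ, hμ, rfl⟩
    obtain ⟨s, μ', rfl⟩ := mem_iUnion.1 hμ
    have hneg : -μ'.1 ∈ dualBall K := by
      rw [mem_dualBall_iff]
      intro f
      have := mem_dualBall_iff.1 μ'.2 f
      show |-(μ'.1 f)| ≤ ‖f‖
      rwa [abs_neg]
    exact ⟨r s ⟨-μ'.1, hneg⟩, mem_iUnion.2 ⟨s, ⟨_, rfl⟩⟩, rfl⟩

end Implications

/-- **Main theorem.** For every compact Hausdorff space `K` all three implications of the question
hold: (iii) implies (ii), (ii) implies (i), and (iii) implies (i). -/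
theorem result (K : Type u) [TopologicalSpace K] [CompactSpace K] [T2Space K] :
    (StatementIII.{u, v} K → StatementII.{u, v} K) ∧
    (StatementII.{u, v} K → StatementI.{u, v} K) ∧
    (StatementIII.{u, v} K → StatementI.{u, v} K) :=
  ⟨fun h => statementII_of_statementI (statementI_of_statementIII h),
    statementI_of_statementII, statementI_of_statementIII⟩

end Pool.Agent.Results.MP_baa10a_an.Skeletons
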